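import Mathlib

/-!
# Strong Roman domination: the `6n/7` bound fails for general connected graphs

For `h` let `N = 2 ^ h`. The graph has a vertex `inl l` for every `l < N` and a vertex `inr (i, y)`
for every `i ≤ h` and `y < N`; the vertex `inr (i, y)` is adjacent to the vertices `inl l` with
`l` in the dyadic block of length `2 ^ i` which contains `y`. For every set `W` of vertices at most
`3 N` of the `(h + 2) N` vertices have exactly one neighbour in `W`, which forces the weight of a
strong Roman dominating function to be at least `(h + 2) N - 3 N / 2`.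
-/

set_option autoImplicit false

namespace Pool.Agent.Results.MP_fc66e6_co.CoreGraphs

open Finset

open Classical in
/-- `f` is a strong Roman dominating function of `G`: its values are at most `⌈Δ/2⌉ + 1` and every
vertex `v` with `f v = 0` has a neighbour `w` with `f w ≥ 2` and
`f w ≥ 1 + ⌈|N(w) ∩ B₀| / 2⌉`, where `B₀ = f⁻¹(0)`. -/
def IsStRDF {V : Type} [Fintype V] (G : SimpleGraph V) (f : V → ℕ) : Prop :=
  (∀ v, f v ≤ ⌈(G.maxDegree : ℚ) / 2⌉₊ + 1) ∧
    ∀ v, f v = 0 → ∃ w, G.Adj v w ∧ 2 ≤ f w ∧
      1 + ⌈(((univ.filter fun u => G.Adj w u ∧ f u = 0).card : ℕ) : ℚ) / 2⌉₊ ≤ f w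

/-- The strong Roman domination number: the least weight of a strong Roman dominating function. -/
noncomputable def gammaStR {V : Type} [Fintype V] (G : SimpleGraph V) : ℕ :=
  sInf {w | ∃ f : V → ℕ, IsStRDF G f ∧ ∑ v, f v = w}

/-! ### The lower bound through uniquely covered vertices -/

open Classical in
theorem two_mul_weight {V : Type} [Fintype V] (G : SimpleGraph V) (f : V → ℕ) (hf : IsStRDF G f) :
    ∃ W : Finset V, 2 * Fintype.card V ≤ 2 * ∑ v, f v +
      (univ.filter fun z => (W.filter fun w => G.Adj z w).card = 1).card := by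
  obtain ⟨-, hf⟩ := hf
  set Z : Finset V := univ.filter fun v => f v = 0 with hZ
  set W : Finset V := univ.filter fun w => 2 ≤ f w ∧
    2 + (Z.filter fun u => G.Adj w u).card ≤ 2 * f w with hW
  refine ⟨W, ?_⟩
  have hcov : ∀ z ∈ Z, 1 ≤ (W.filter fun w => G.Adj z w).card := by
    intro z hz
    obtain ⟨w, hzw, h2, hw⟩ := hf z (by simpa [hZ] using hz)
    refine Finset.card_pos.2 ⟨w, ?_⟩
    rw [mem_filter]
    refine ⟨?_, hzw⟩
    rw [hW, mem_filter]
    refine ⟨mem_univ _, h2, ?_⟩
    have e : (univ.filter fun u => G.Adj w u ∧ f u = 0) = Z.filter fun u => G.Adj w u := by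
      ext u; simp [hZ, and_comm]
    rw [e] at hw
    set c := (Z.filter fun u => G.Adj w u).card with hc
    have h3 : (c : ℚ) / 2 ≤ ⌈(c : ℚ) / 2⌉₊ := Nat.le_ceil _
    have h4 : (c : ℚ) ≤ ((2 * ⌈(c : ℚ) / 2⌉₊ : ℕ) : ℚ) := by
      push_cast
      linarith
    have h5 : c ≤ 2 * ⌈(c : ℚ) / 2⌉₊ := by exact_mod_cast h4
    omega
  -- pointwise lower bound for `2 f`
  have hpt : ∀ v, 2 + (if v ∈ W then (Z.filter fun u => G.Adj v u).card else 0) ≤
      2 * f v + (if v ∈ Z then 2 else 0) := by
    intro v
    by_cases hv : v ∈ W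
    · have := hv
      rw [hW, mem_filter] at this
      simp only [hv, if_true]
      have := this.2.2
      omega
    · simp only [hv, if_false]
      by_cases hz : v ∈ Z
      · simp [hz]
      · have : f v ≠ 0 := fun h => hz (by simp [hZ, h])
        simp only [hz, if_false]
        omega
  have hsum := Finset.sum_le_sum fun v (_ : v ∈ (univ : Finset V)) => hpt v
  rw [sum_add_distrib, sum_add_distrib, ← mul_sum] at hsum
  simp only [sum_const, card_univ, smul_eq_mul] at hsum
  have e1 : ∑ v : V, (if v ∈ Z then 2 else 0) = 2 * Z.card := by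
    rw [← sum_filter]
    simp [mul_comm]
  have e2 : ∑ v : V, (if v ∈ W then (Z.filter fun u => G.Adj v u).card else 0) =
      ∑ z ∈ Z, (W.filter fun w => G.Adj z w).card := by
    rw [← sum_filter]
    simp only [filter_mem_eq_inter, univ_inter, card_filter]
    rw [sum_comm]
    simp only [G.adj_comm]
  rw [e1, e2] at hsum
  have e3 : 2 * Z.card ≤ ∑ z ∈ Z, (W.filter fun w => G.Adj z w).card +
      (univ.filter fun z => (W.filter fun w => G.Adj z w).card = 1).card := by
    have h1 : ∀ z ∈ Z, 2 ≤ (W.filter fun w => G.Adj z w).card +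
        (if (W.filter fun w => G.Adj z w).card = 1 then 1 else 0) := by
      intro z hz
      have := hcov z hz
      split_ifs with h
      · omega
      · omega
    have h2 := Finset.sum_le_sum h1
    rw [sum_add_distrib] at h2
    simp only [sum_const, smul_eq_mul] at h2
    have h3 : ∑ z ∈ Z, (if (W.filter fun w => G.Adj z w).card = 1 then 1 else 0) ≤
        (univ.filter fun z => (W.filter fun w => G.Adj z w).card = 1).card := by
      rw [card_filter]
      exact sum_le_sum_of_subset (subset_univ _)
    omega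
  omega

/-! ### Unique coverage by dyadic blocks -/

theorem sum_two_pow_lt (n : ℕ) : ∑ i ∈ range n, 2 ^ i < 2 ^ n := by
  induction n with
  | zero => simp
  | succ n ih =>
    rw [sum_range_succ, pow_succ]
    omega

theorem block_card (i q M : ℕ) : ((range M).filter fun y => q = y / 2 ^ i).card ≤ 2 ^ i := by
  have hpos : 0 < 2 ^ i := by positivity
  have : ((range M).filter fun y => q = y / 2 ^ i) ⊆ Ico (2 ^ i * q) (2 ^ i * q + 2 ^ i) := by
    intro y hy
    rw [mem_filter] at hy
    rw [mem_Ico, hy.2]
    constructor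
    · exact Nat.mul_div_le y (2 ^ i)
    · have := Nat.lt_mul_div_succ y hpos
      rw [mul_add, mul_one] at this
      exact this
  calc _ ≤ (Ico (2 ^ i * q) (2 ^ i * q + 2 ^ i)).card := card_le_card this
    _ = 2 ^ i := by simp

/-- The number of pairs `(i, y)` for which the block of length `2 ^ i` of `y` contains exactly one
element of `W` is at most `2 ^ (h + 1)`. -/
theorem core (h : ℕ) : ∀ W : Finset ℕ, (∀ l ∈ W, l < 2 ^ h) →
    ∑ i ∈ range (h + 1), ∑ y ∈ range (2 ^ h),
      (if (W.filter fun l => l / 2 ^ i = y / 2 ^ i).card = 1 then 1 else 0) ≤ 2 ^ (h + 1) := by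
  induction h with
  | zero =>
    intro W _
    simp only [zero_add, range_one, sum_singleton, pow_zero]
    split_ifs <;> norm_num
  | succ h ih =>
    intro W hW
    by_cases h1 : W.card = 1
    · obtain ⟨l, rfl⟩ := card_eq_one.1 h1
      have key : ∀ i ∈ range (h + 1 + 1), ∑ y ∈ range (2 ^ (h + 1)),
          (if ((({l} : Finset ℕ)).filter fun l => l / 2 ^ i = y / 2 ^ i).card = 1 then 1 else 0)
            ≤ 2 ^ i := by
        intro i _
        refine le_trans (le_of_eq ?_) (block_card i (l / 2 ^ i) (2 ^ (h + 1)))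
        rw [card_filter]
        refine sum_congr rfl fun y _ => ?_
        rw [filter_singleton]
        by_cases hl : l / 2 ^ i = y / 2 ^ i
        · simp [hl]
        · simp [hl]
      exact le_trans (sum_le_sum key) (sum_two_pow_lt _).le
    · rw [sum_range_succ]
      have htop : ∑ y ∈ range (2 ^ (h + 1)),
          (if (W.filter fun l => l / 2 ^ (h + 1) = y / 2 ^ (h + 1)).card = 1 then 1 else 0) = 0 := by
        refine sum_eq_zero fun y hy => ?_
        have e : (W.filter fun l => l / 2 ^ (h + 1) = y / 2 ^ (h + 1)) = W := by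
          refine filter_true_of_mem fun l hl => ?_
          rw [Nat.div_eq_of_lt (hW l hl), Nat.div_eq_of_lt (mem_range.1 hy)]
        rw [e, if_neg h1]
      rw [htop, add_zero]
      set W1 : Finset ℕ := W.filter fun l => l < 2 ^ h with hW1
      set W2 : Finset ℕ := (range (2 ^ h)).filter fun l => 2 ^ h + l ∈ W with hW2
      have b1 := ih W1 (fun l hl => (mem_filter.1 hl).2)
      have b2 := ih W2 (fun l hl => mem_range.1 (mem_filter.1 hl).1)
      have hs : ∀ i ∈ range (h + 1), ∑ y ∈ range (2 ^ (h + 1)),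
          (if (W.filter fun l => l / 2 ^ i = y / 2 ^ i).card = 1 then 1 else 0) =
          ∑ y ∈ range (2 ^ h),
            (if (W1.filter fun l => l / 2 ^ i = y / 2 ^ i).card = 1 then 1 else 0) +
          ∑ y ∈ range (2 ^ h),
            (if (W2.filter fun l => l / 2 ^ i = y / 2 ^ i).card = 1 then 1 else 0) := by
        intro i hi
        have hih : i ≤ h := Nat.lt_succ_iff.1 (mem_range.1 hi)
        have hsplit : 2 ^ h = 2 ^ i * 2 ^ (h - i) := by rw [← pow_add, Nat.add_sub_cancel' hih]
        have hpos : 0 < 2 ^ i := by positivity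
        have hdiv : ∀ y, (2 ^ h + y) / 2 ^ i = 2 ^ (h - i) + y / 2 ^ i := by
          intro y
          rw [hsplit, Nat.mul_add_div hpos]
        have hlt : ∀ y, y < 2 ^ h ↔ y / 2 ^ i < 2 ^ (h - i) := by
          intro y
          rw [Nat.div_lt_iff_lt_mul hpos, mul_comm, ← hsplit]
        rw [show 2 ^ (h + 1) = 2 ^ h + 2 ^ h by ring, sum_range_add]
        congr 1
        · refine sum_congr rfl fun y hy => ?_
          have hy' := (hlt y).1 (mem_range.1 hy)
          congr 2
          rw [hW1, filter_filter]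
          congr 1
          refine filter_congr fun l _ => ?_
          constructor
          · intro e
            exact ⟨(hlt l).2 (e ▸ hy'), e⟩
          · exact fun e => e.2
        · refine sum_congr rfl fun y hy => ?_
          have hy' := (hlt y).1 (mem_range.1 hy)
          congr 2
          symm
          refine card_bij (fun l _ => 2 ^ h + l) ?_ ?_ ?_
          · intro l hl
            rw [mem_filter, hW2, mem_filter] at hl
            rw [mem_filter, hdiv, hdiv, hl.2]
            exact ⟨hl.1.2, rfl⟩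
          · intro a _ b _ e
            omega
          · intro l hl
            rw [mem_filter, hdiv] at hl
            have hl1 : 2 ^ h ≤ l := by
              by_contra hcon
              have := (hlt l).1 (not_le.1 hcon)
              rw [hl.2] at this
              exact absurd this (Nat.not_lt.2 (Nat.le_add_right _ _))
            have hl2 := hW l hl.1
            refine ⟨l - 2 ^ h, ?_, by omega⟩
            rw [mem_filter, hW2, mem_filter, mem_range]
            have e : 2 ^ h + (l - 2 ^ h) = l := by omega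
            refine ⟨⟨?_, by rw [e]; exact hl.1⟩, ?_⟩
            · rw [pow_succ] at hl2
              omega
            · have := hdiv (l - 2 ^ h)
              rw [e, hl.2] at this
              omega
      rw [sum_congr rfl hs, sum_add_distrib, pow_succ 2 (h + 1)]
      omega

/-! ### The graphs -/

/-- The vertices. -/
abbrev Vert (h : ℕ) : Type := Fin (2 ^ h) ⊕ (Fin (h + 1) × Fin (2 ^ h))

/-- The incidence between `l` and `(i, y)`. -/
def inc {h : ℕ} : Vert h → Vert h → Prop
  | Sum.inl l, Sum.inr r => l.1 / 2 ^ r.1.1 = r.2.1 / 2 ^ r.1.1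
  | Sum.inr r, Sum.inl l => l.1 / 2 ^ r.1.1 = r.2.1 / 2 ^ r.1.1
  | _, _ => False

/-- The core graph. -/
def coreGraph (h : ℕ) : SimpleGraph (Vert h) where
  Adj := inc
  symm := ⟨by
    rintro (a | a) (b | b) hab
    · exact hab
    · exact hab
    · exact hab
    · exact hab⟩
  loopless := ⟨by
    rintro (a | a) hab
    · exact hab
    · exact hab⟩

theorem connected (h : ℕ) : (coreGraph h).Connected := by
  have hpos : 0 < 2 ^ h := by positivity
  set top : Vert h := Sum.inr (Fin.last h, ⟨0, hpos⟩) with htop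
  have h1 : ∀ l : Fin (2 ^ h), (coreGraph h).Adj (Sum.inl l) top := by
    intro l
    change l.1 / 2 ^ h = 0 / 2 ^ h
    rw [Nat.div_eq_of_lt l.2]
    simp
  have h2 : ∀ v, (coreGraph h).Reachable v top := by
    rintro (l | r)
    · exact (h1 l).reachable
    · have : (coreGraph h).Adj (Sum.inr r) (Sum.inl r.2) := rfl
      exact this.reachable.trans (h1 r.2).reachable
  have : Nonempty (Vert h) := ⟨top⟩
  exact ⟨fun u v => (h2 u).trans (h2 v).symm⟩

theorem card_vert (h : ℕ) : Fintype.card (Vert h) = (h + 2) * 2 ^ h := by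
  simp only [Fintype.card_sum, Fintype.card_fin, Fintype.card_prod]
  ring

open Classical in
theorem unique_le (h : ℕ) (W : Finset (Vert h)) :
    (univ.filter fun z => (W.filter fun w => (coreGraph h).Adj z w).card = 1).card ≤
      3 * 2 ^ h := by
  set W' : Finset ℕ := (univ.filter fun l : Fin (2 ^ h) => Sum.inl l ∈ W).image (fun l => l.1)
    with hW'
  have hc := core h W' (by
    intro l hl
    rw [hW', mem_image] at hl
    obtain ⟨a, -, rfl⟩ := hl
    exact a.2)
  have hcard : ∀ r : Fin (h + 1) × Fin (2 ^ h),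
      (W.filter fun w => (coreGraph h).Adj (Sum.inr r) w).card =
      (W'.filter fun l => l / 2 ^ r.1.1 = r.2.1 / 2 ^ r.1.1).card := by
    intro r
    symm
    refine card_bij (fun l hl => Sum.inl ⟨l, ?_⟩) ?_ ?_ ?_
    · rw [mem_filter, hW', mem_image] at hl
      obtain ⟨⟨a, -, rfl⟩, -⟩ := hl
      exact a.2
    · intro l hl
      rw [mem_filter, hW', mem_image] at hl
      obtain ⟨⟨a, ha, rfl⟩, hl⟩ := hl
      rw [mem_filter] at ha ⊢
      exact ⟨ha.2, hl⟩
    · intro a _ b _ e
      have := Sum.inl_injective e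
      exact congrArg Fin.val this
    · intro w hw
      rw [mem_filter] at hw
      rcases w with l | r'
      · refine ⟨l.1, ?_, rfl⟩
        rw [mem_filter, hW', mem_image]
        exact ⟨⟨l, by simp [hw.1], rfl⟩, hw.2⟩
      · exact hw.2.elim
  rw [card_filter, Fintype.sum_sum_type]
  have hL : ∑ l : Fin (2 ^ h), (if (W.filter fun w => (coreGraph h).Adj (Sum.inl l) w).card = 1
      then 1 else 0) ≤ 2 ^ h := by
    refine le_trans (sum_le_sum fun l _ => (?_ : _ ≤ 1)) ?_
    · split_ifs <;> norm_num
    · simp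
  have hR : ∑ r : Fin (h + 1) × Fin (2 ^ h),
      (if (W.filter fun w => (coreGraph h).Adj (Sum.inr r) w).card = 1 then 1 else 0) ≤
      2 ^ (h + 1) := by
    simp only [hcard]
    rw [Fintype.sum_prod_type]
    rw [← Fin.sum_univ_eq_sum_range (fun i => ∑ y ∈ range (2 ^ h),
      (if (W'.filter fun l => l / 2 ^ i = y / 2 ^ i).card = 1 then 1 else 0)) (h + 1)] at hc
    refine le_trans (le_of_eq (sum_congr rfl fun i _ => ?_)) hc
    rw [← Fin.sum_univ_eq_sum_range (fun y =>
      (if (W'.filter fun l => l / 2 ^ i.1 = y / 2 ^ i.1).card = 1 then 1 else 0)) (2 ^ h)]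
  rw [pow_succ] at hR
  omega

theorem gamma_lower (h : ℕ) : (2 * h + 1) * 2 ^ h ≤ 2 * gammaStR (coreGraph h) := by
  have hne : {w | ∃ f : Vert h → ℕ, IsStRDF (coreGraph h) f ∧ ∑ v, f v = w}.Nonempty := by
    refine ⟨_, fun _ => 1, ⟨fun v => Nat.le_add_left _ _, fun v hv => by simp at hv⟩, rfl⟩
  obtain ⟨f, hf, hw⟩ := Nat.sInf_mem hne
  obtain ⟨W, hW⟩ := two_mul_weight (coreGraph h) f hf
  have hu := unique_le h W
  rw [card_vert] at hW
  rw [gammaStR, ← hw]
  have : (2 * h + 1) * 2 ^ h + 3 * 2 ^ h = 2 * ((h + 2) * 2 ^ h) := by ring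
  omega

/-- The bound `γ_StR(G) ≤ 6 n / 7` fails for connected graphs, and no bound of the form
`γ_StR(G) ≤ (1 - ε) n` holds: for every `ε > 0` there is a connected graph `G` of order
`n ≥ 3` with `γ_StR(G) > (1 - ε) n`. -/
theorem result :
    (¬ ∀ (V : Type) [Fintype V] (G : SimpleGraph V), G.Connected → 3 ≤ Fintype.card V →
      (gammaStR G : ℝ) ≤ 6 / 7 * Fintype.card V) ∧
    ∀ ε : ℝ, 0 < ε → ∃ (V : Type) (_ : Fintype V) (G : SimpleGraph V), G.Connected ∧
      3 ≤ Fintype.card V ∧ (1 - ε) * Fintype.card V < gammaStR G := by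
  have main : ∀ ε : ℝ, 0 < ε → ∃ (V : Type) (_ : Fintype V) (G : SimpleGraph V), G.Connected ∧
      3 ≤ Fintype.card V ∧ (1 - ε) * Fintype.card V < gammaStR G := by
    intro ε hε
    obtain ⟨h, hh⟩ := exists_nat_gt (3 / (2 * ε))
    have hh1 : 3 / (2 * ε) < (h : ℝ) + 1 := by linarith
    have h3 : 3 < 2 * ε * ((h : ℝ) + 1) := by
      rwa [div_lt_iff₀ (by positivity), mul_comm] at hh1
    refine ⟨Vert (h + 1), inferInstance, coreGraph (h + 1), connected _, ?_, ?_⟩
    · rw [card_vert]
      have : 2 ≤ 2 ^ (h + 1) := by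
        calc 2 = 2 ^ 1 := by norm_num
          _ ≤ 2 ^ (h + 1) := Nat.pow_le_pow_right (by norm_num) (by omega)
      nlinarith
    · rw [card_vert]
      have hl := gamma_lower (h + 1)
      have hl' : ((2 * ((h + 1 : ℕ) : ℝ) + 1) * 2 ^ (h + 1)) ≤
          2 * (gammaStR (coreGraph (h + 1)) : ℝ) := by exact_mod_cast hl
      have hp : (0 : ℝ) < 2 ^ (h + 1) := by positivity
      push_cast at hl' ⊢
      nlinarith
  refine ⟨fun hall => ?_, main⟩
  obtain ⟨V, _, G, hG, hV, hlt⟩ := main (1 / 7) (by norm_num)
  have := hall V G hG hV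
  norm_num at hlt
  linarith

end Pool.Agent.Results.MP_fc66e6_co.CoreGraphs
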